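import Pool.Agent.G02.Stmts

/-!
# Squad G02 (MP_ba5221_nt), row NQR: a non-residue `t` with `t - 4` a residue
-/

set_option autoImplicit false

namespace Pool.Agent.G02.H8

open Pool.Agent.G02

/-- row NQR -/
theorem nqr : NqrStmt := by
  intro l _ hl2
  have hl : l.Prime := Fact.out
  have h2 : (2 : ZMod l) ≠ 0 := by
    intro h
    have h' : ((2 : ℕ) : ZMod l) = 0 := by exact_mod_cast h
    rw [ZMod.natCast_eq_zero_iff] at h'
    exact hl2 ((Nat.prime_dvd_prime_iff_eq hl Nat.prime_two).mp h')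
  have h4 : (4 : ZMod l) ≠ 0 := by
    have : (4 : ZMod l) = 2 * 2 := by norm_num
    rw [this]
    exact mul_ne_zero h2 h2
  have hex : ∃ j : ℕ, legendreSym l (4 * (j : ℤ)) = -1 ∧ j < l := by
    obtain ⟨a, ha⟩ := FiniteField.exists_nonsquare (F := ZMod l) (by
      rw [ZMod.ringChar_zmod_n]; exact hl2)
    refine ⟨(a / 4).val, ?_, ZMod.val_lt _⟩
    rw [legendreSym.eq_neg_one_iff]
    have : ((4 * (((a / 4).val : ℕ) : ℤ) : ℤ) : ZMod l) = a := by
      push_cast
      rw [ZMod.natCast_zmod_val]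
      field_simp
    rw [this]
    exact ha
  classical
  let j := Nat.find hex
  have hj : legendreSym l (4 * (j : ℤ)) = -1 ∧ j < l := Nat.find_spec hex
  have hmin : ∀ m : ℕ, m < j → ¬ (legendreSym l (4 * (m : ℤ)) = -1 ∧ m < l) :=
    fun m hm => Nat.find_min hex hm
  have j0 : j ≠ 0 := by
    intro h
    rw [h] at hj
    simp at hj
  have j1 : j ≠ 1 := by
    intro h
    rw [h] at hj
    rw [legendreSym.eq_neg_one_iff] at hj
    apply hj.1
    exact ⟨2, by push_cast; norm_num⟩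
  refine ⟨4 * (j : ℤ), hj.1, ?_⟩
  obtain ⟨m, hm⟩ : ∃ m : ℕ, j = m + 1 := ⟨j - 1, by omega⟩
  have e : (4 * (j : ℤ) - 4 : ℤ) = 4 * (m : ℤ) := by rw [hm]; push_cast; ring
  rw [e]
  have hm1 := hmin m (by omega)
  have hml : m < l := by have := hj.2; omega
  have hne : ((4 * (m : ℤ) : ℤ) : ZMod l) ≠ 0 := by
    push_cast
    refine mul_ne_zero h4 ?_
    intro h
    rw [ZMod.natCast_eq_zero_iff] at h
    have := Nat.le_of_dvd (by omega) h
    omega
  rcases legendreSym.eq_one_or_neg_one l hne with h | h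
  · exact h
  · exact absurd ⟨h, hml⟩ hm1

end Pool.Agent.G02.H8
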