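import Pool.Agent.G02.Stmts

/-!
# Squad G02 (MP_ba5221_nt), row RES: residue classes
-/

set_option autoImplicit false

namespace Pool.Agent.G02.H8

open Pool.Agent.G02

theorem crt2 (m n a b : ℤ) (h : IsCoprime m n) : ∃ x : ℤ, x ≡ a [ZMOD m] ∧ x ≡ b [ZMOD n] := by
  obtain ⟨r, t, hrt⟩ := h
  refine ⟨a * (t * n) + b * (r * m), ?_, ?_⟩
  · refine (Int.modEq_iff_dvd.mpr ⟨r * (a - b), ?_⟩)
    have : t * n = 1 - r * m := by linarith
    rw [this]; ring
  · refine (Int.modEq_iff_dvd.mpr ⟨t * (b - a), ?_⟩)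
    have : r * m = 1 - t * n := by linarith
    rw [this]; ring

theorem leg_congr (l : ℕ) [Fact l.Prime] {x y : ℤ} (h : x ≡ y [ZMOD l]) :
    legendreSym l x = legendreSym l y := by
  rw [legendreSym.mod l x, legendreSym.mod l y, h]

theorem jac_congr (K : ℕ) {x y : ℤ} (h : x ≡ y [ZMOD K]) :
    jacobiSym x K = jacobiSym y K := by
  rw [jacobiSym.mod_left x K, jacobiSym.mod_left y K, h]

theorem exT (hN : NqrStmt) : ∀ K : ℕ, Odd K → Squarefree K → ∃ T : ℤ,
    ∀ (l : ℕ) [Fact l.Prime], (l : ℤ) ∣ (K : ℤ) →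
      legendreSym l T = -1 ∧ legendreSym l (T - 4) = 1 := by
  intro K
  induction K using Nat.strong_induction_on with
  | _ K ih =>
    intro hK hsq
    by_cases h1 : K = 1
    · refine ⟨0, fun l hl hd => ?_⟩
      exfalso
      rw [h1] at hd
      have : l ∣ 1 := by exact_mod_cast hd
      exact hl.out.one_lt.ne' (Nat.dvd_one.mp this)
    · have hl : K.minFac.Prime := Nat.minFac_prime h1
      obtain ⟨K', hK'⟩ := Nat.minFac_dvd K
      set l := K.minFac with hldef
      have hK0 : K ≠ 0 := by rintro rfl; simp at hK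
      have hK'0 : K' ≠ 0 := by
        rintro rfl
        exact hK0 (by rw [hK', mul_zero])
      have hlt : K' < K := by
        calc K' = 1 * K' := (one_mul _).symm
          _ < l * K' := Nat.mul_lt_mul_of_pos_right hl.one_lt (Nat.pos_of_ne_zero hK'0)
          _ = K := hK'.symm
      have hodd' : Odd K' := by
        rw [hK', Nat.odd_mul] at hK
        exact hK.2
      have hoddl : Odd l := by
        rw [hK', Nat.odd_mul] at hK
        exact hK.1
      have hsq' : Squarefree K' := hsq.squarefree_of_dvd (by rw [hK']; exact dvd_mul_left _ _)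
      have hcop : Nat.Coprime l K' := by
        rw [hK'] at hsq
        exact Nat.coprime_of_squarefree_mul hsq
      obtain ⟨T', hT'⟩ := ih K' hlt hodd' hsq'
      have : Fact l.Prime := ⟨hl⟩
      have hl2 : l ≠ 2 := by
        intro h
        rw [h] at hoddl
        exact absurd hoddl (by decide)
      obtain ⟨t, ht1, ht2⟩ := hN l hl2
      obtain ⟨T, hTl, hTK⟩ := crt2 (l : ℤ) (K' : ℤ) t T' (Nat.isCoprime_iff_coprime.mpr hcop)
      refine ⟨T, fun l' hl' hd => ?_⟩
      have hd' : l' ∣ l * K' := by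
        rw [hK'] at hd
        exact_mod_cast hd
      rcases (Nat.Prime.dvd_mul hl'.out).mp hd' with h | h
      · have hll : l' = l := (Nat.prime_dvd_prime_iff_eq hl'.out hl).mp h
        subst hll
        exact ⟨by rw [leg_congr _ hTl, ht1], by rw [leg_congr _ (hTl.sub_right 4), ht2]⟩
      · have hc : T ≡ T' [ZMOD l'] := hTK.of_dvd (by exact_mod_cast h)
        obtain ⟨g1, g2⟩ := hT' l' (by exact_mod_cast h)
        exact ⟨by rw [leg_congr _ hc, g1], by rw [leg_congr _ (hc.sub_right 4), g2]⟩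

theorem exV (K : ℕ) (hK : Odd K) (hsq : Squarefree K) (s : ℤ)
    (hs : (s = 1 ∨ s = -1) ∧ (K = 1 → s = 1)) : ∃ v : ℤ, jacobiSym v K = s := by
  rcases hs.1 with h | h
  · exact ⟨1, by rw [h, jacobiSym.one_left]⟩
  · have h1 : K ≠ 1 := by
      intro h1
      have := hs.2 h1
      rw [h] at this
      norm_num at this
    have hl : K.minFac.Prime := Nat.minFac_prime h1
    obtain ⟨K', hK'⟩ := Nat.minFac_dvd K
    set l := K.minFac with hldef
    have hK0 : K ≠ 0 := by rintro rfl; simp at hK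
    have hK'0 : K' ≠ 0 := by
      rintro rfl
      exact hK0 (by rw [hK', mul_zero])
    have hoddl : Odd l := by
      rw [hK', Nat.odd_mul] at hK
      exact hK.1
    have hcop : Nat.Coprime l K' := by
      rw [hK'] at hsq
      exact Nat.coprime_of_squarefree_mul hsq
    have : Fact l.Prime := ⟨hl⟩
    have hl2 : l ≠ 2 := by
      intro h
      rw [h] at hoddl
      exact absurd hoddl (by decide)
    obtain ⟨a, ha⟩ := FiniteField.exists_nonsquare (F := ZMod l) (by
      rw [ZMod.ringChar_zmod_n]; exact hl2)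
    obtain ⟨v, hvl, hvK⟩ := crt2 (l : ℤ) (K' : ℤ) (a.val : ℤ) 1
      (Nat.isCoprime_iff_coprime.mpr hcop)
    refine ⟨v, ?_⟩
    have : NeZero l := ⟨hl.ne_zero⟩
    have : NeZero K' := ⟨hK'0⟩
    have e1 : jacobiSym v l = -1 := by
      rw [← jacobiSym.legendreSym.to_jacobiSym, leg_congr l hvl, legendreSym.eq_neg_one_iff]
      have : (((a.val : ℕ) : ℤ) : ZMod l) = a := by
        push_cast
        exact ZMod.natCast_zmod_val a
      rw [this]
      exact ha
    have e2 : jacobiSym v K' = 1 := by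
      rw [jac_congr K' hvK, jacobiSym.one_left]
    calc jacobiSym v K = jacobiSym v (l * K') := by rw [← hK']
      _ = jacobiSym v l * jacobiSym v K' := jacobiSym.mul_right v l K'
      _ = s := by rw [e1, e2, h]; norm_num

/-- row RES -/
theorem res (hN : NqrStmt) : ResStmt := by
  intro K c c' w s hK hsq hw hs
  have hK0 : K ≠ 0 := by rintro rfl; simp at hK
  have : NeZero K := ⟨hK0⟩
  have h8 : IsCoprime (8 : ℤ) (K : ℤ) := by
    have : Nat.Coprime 8 K := by
      have h2 : Nat.Coprime 2 K := (Nat.coprime_two_left).mpr hK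
      have := Nat.Coprime.pow_left 3 h2
      norm_num at this
      exact this
    exact_mod_cast Nat.isCoprime_iff_coprime.mpr this
  obtain ⟨T, hT⟩ := exT hN K hK hsq
  obtain ⟨v0, hv0⟩ := exV K hK hsq s hs
  obtain ⟨v, hv8, hvK⟩ := crt2 8 (K : ℤ) c' v0 h8
  obtain ⟨r, t, hrt⟩ := hw
  obtain ⟨u, hu8, huK⟩ := crt2 8 (K : ℤ) c (r * (T * v)) h8
  have hjv : jacobiSym v K = s := by rw [jac_congr K hvK, hv0]
  refine ⟨T, u, v, hu8, hv8, ?_, ?_, hjv, hT⟩
  · have h1 : w * u ≡ w * (r * (T * v)) [ZMOD K] := Int.ModEq.mul_left w huK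
    refine h1.trans ?_
    refine (Int.modEq_iff_dvd.mpr ⟨t * (T * v), ?_⟩)
    have : r * w = 1 - t * (K : ℤ) := by linarith
    have e : w * (r * (T * v)) = (r * w) * (T * v) := by ring
    rw [e, this]; ring
  · have hne : jacobiSym v K ≠ 0 := by
      rw [hjv]
      rcases hs.1 with h | h <;> rw [h] <;> norm_num
    rw [Int.isCoprime_iff_gcd_eq_one]
    by_contra hcon
    exact hne (jacobiSym.eq_zero_iff_not_coprime.mpr hcon)

end Pool.Agent.G02.H8
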