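import Pool.Agent.Helper29_G02.TRB

/-!
# Squad G02 (MP_ba5221_nt), row TRS: recipe S, conclusions
-/

set_option autoImplicit false

namespace Pool.Agent.G02.H8

open Pool.Agent.G02

theorem val_three {p : ℕ} [Fact p.Prime] {b c : ℤ} (h : b = (p : ℤ) ^ 3 * c)
    (hc : ¬ (p : ℤ) ∣ c) : padicValInt p b = 3 := by
  have hc0 : c ≠ 0 := by
    rintro rfl
    exact hc (dvd_zero _)
  have hp0 : (p : ℤ) ≠ 0 := by exact_mod_cast (Fact.out : p.Prime).ne_zero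
  have e : b = p * (p * (p * c)) := by rw [h]; ring
  rw [e, padicValInt.mul hp0 (mul_ne_zero hp0 (mul_ne_zero hp0 hc0)),
    padicValInt.mul hp0 (mul_ne_zero hp0 hc0), padicValInt.mul hp0 hc0, padicValInt_self,
    padicValInt.eq_zero_of_not_dvd hc]

/-- the common part of the two recipes -/
theorem coreS (hNRM : NrmStmt) (hCRI : CriStmt) (hTWV : TwvStmt) (k : ℤ) (p q r : ℕ)
    (hp : p.Prime) (hq : q.Prime) (hr : r.Prime) (hk : Odd k) (op : Odd (p : ℤ)) (oq : Odd (q : ℤ))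
    (orr : Odd (r : ℤ)) (hpk : ¬ (p : ℤ) ∣ k) (hp2 : p ≠ 2) (hpq : p ≠ q) (hpr : p ≠ r)
    (hrr : (r : ℤ) = q - 2 * p)
    (h1 : ∀ d M e N B : ℤ, Qt (-(4 * k * p ^ 2 * q * r)) (2 * k ^ 2 * p ^ 3 * q ^ 3 * r ^ 2)
      d M e N B → ¬ (p : ℤ) ∣ d → d = 1)
    (h2 : ∀ d M e N B : ℤ, Qt (8 * k * p ^ 2 * q * r) (-(8 * k ^ 2 * p ^ 3 * q ^ 2 * r ^ 3))
      d M e N B → ¬ (p : ℤ) ∣ d → d = 1) :
    Tr ((-(4 * k * p ^ 2 * q * r) : ℤ) : ℚ) ((2 * k ^ 2 * p ^ 3 * q ^ 3 * r ^ 2 : ℤ) : ℚ) := by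
  have : Fact p.Prime := ⟨hp⟩
  have hP : Prime (p : ℤ) := Nat.prime_iff_prime_int.mp hp
  have n2 := H29.not_dvd_two hp hp2
  have nq := H29.not_dvd_nat hp hq hpq
  have nr := H29.not_dvd_nat hp hr hpr
  have nmul : ∀ x y : ℤ, ¬ (p : ℤ) ∣ x → ¬ (p : ℤ) ∣ y → ¬ (p : ℤ) ∣ x * y := by
    intro x y hx hy h
    rcases hP.dvd_or_dvd h with h | h
    · exact hx h
    · exact hy h
  have npow : ∀ (x : ℤ) (n : ℕ), ¬ (p : ℤ) ∣ x → ¬ (p : ℤ) ∣ x ^ n := by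
    intro x n hx h
    exact hx (hP.dvd_of_dvd_pow h)
  have n8 : ¬ (p : ℤ) ∣ 8 := by
    have := npow 2 3 n2
    norm_num at this; exact this
  have e1 : padicValInt p (2 * k ^ 2 * p ^ 3 * q ^ 3 * r ^ 2) = 3 :=
    val_three (c := 2 * k ^ 2 * q ^ 3 * r ^ 2) (by ring)
      (nmul _ _ (nmul _ _ (nmul _ _ n2 (npow _ _ hpk)) (npow _ _ nq)) (npow _ _ nr))
  have e2 : padicValInt p (-(8 * k ^ 2 * p ^ 3 * q ^ 2 * r ^ 3)) = 3 :=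
    val_three (c := -(8 * k ^ 2 * q ^ 2 * r ^ 3)) (by ring) (by
      rw [dvd_neg]
      exact nmul _ _ (nmul _ _ (nmul _ _ n8 (npow _ _ hpk)) (npow _ _ nq)) (npow _ _ nr))
  have b4 : (2 * k ^ 2 * p ^ 3 * q ^ 3 * r ^ 2 : ℤ) % 4 = 2 := by
    have o1 : Odd (k ^ 2 * p ^ 3 * q ^ 3 * r ^ 2 : ℤ) :=
      ((hk.pow.mul op.pow).mul oq.pow).mul orr.pow
    obtain ⟨n, hn⟩ := o1
    have : (2 * k ^ 2 * p ^ 3 * q ^ 3 * r ^ 2 : ℤ) = 2 * (2 * n + 1) := by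
      rw [← hn]
      ring
    rw [this]
    omega
  refine H29.assemble hNRM hCRI hTWV (-(4 * k * p ^ 2 * q * r)) (2 * k ^ 2 * p ^ 3 * q ^ 3 * r ^ 2)
    (8 * k * p ^ 2 * q * r) (-(8 * k ^ 2 * p ^ 3 * q ^ 2 * r ^ 3)) p hp b4 (by rw [e1]; decide)
    (by rw [e2]; decide) (by ring) ?_ h1 h2
  rw [hrr]
  ring

/-- row TRS -/
theorem trs (hNRM : NrmStmt) (hCRI : CriStmt) (hTWV : TwvStmt) (hSA1 : Sa1Stmt) (hSA2 : Sa2Stmt)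
    (hSB1 : Sb1Stmt) (hSB2 : Sb2Stmt) (hRLS : RlsStmt) (hKRS : KrsStmt) : TrsStmt := by
  refine ⟨?_, ?_⟩
  · intro k p q r _ hR hk hk0 hleg
    have : Fact p.Prime := ⟨hR.pp⟩
    have : Fact r.Prime := ⟨hR.pr⟩
    obtain ⟨hr8, s, hs⟩ := hRLS.1 k p q r hR
    have hmp := hR.mp
    have hmq := hR.mq
    refine coreS hNRM hCRI hTWV k p q r hR.pp hR.pq hR.pr hk ?_ ?_ ?_ hs.kp hs.p2 hs.npq hs.npr
      hR.hr (hSA1 k p q r hR ?_) (hSA2 k p q r hR hk hleg)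
    · rw [Int.odd_iff]; omega
    · rw [Int.odd_iff]; omega
    · rw [Int.odd_iff]; omega
    · rw [hKRS.1 k p q r hR hk hk0, hleg]
  · intro k p q r _ hR hk hk0 hleg
    have : Fact p.Prime := ⟨hR.pp⟩
    have : Fact r.Prime := ⟨hR.pr⟩
    obtain ⟨hr8, s, hs⟩ := hRLS.2 k p q r hR
    have hmp := hR.mp
    have hmq := hR.mq
    refine coreS hNRM hCRI hTWV k p q r hR.pp hR.pq hR.pr hk ?_ ?_ ?_ hs.kp hs.p2 hs.npq hs.npr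
      hR.hr (hSB1 k p q r hR ?_) (hSB2 k p q r hR hk hleg)
    · rw [Int.odd_iff]; omega
    · rw [Int.odd_iff]; omega
    · rw [Int.odd_iff]; omega
    · rw [hKRS.2 k p q r hR hk hk0, hleg]; norm_num

end Pool.Agent.G02.H8
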